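import Pool.Agent.K1H62.IV.Stm
import Pool.Agent.K1H62.IV.Sev
import Pool.Agent.R617.VT.Cmp

set_option autoImplicit false

/-! The class of prime interval graphs of bounded nesting; general graphs and orders. -/

namespace Pool.Agent.K1H62.IV

open Set MeasureTheory
open Pool.Agent.H533R2.VO (RS)
open Pool.Agent.H533R2.VS (VCu US UIso UDich)
open Pool.Agent.W878.VC
open Pool.Agent.R617.VT.Cmp (Bl rs_one rs_ge vs_ord Ord)
open Pool.Agent.K1H62.PG (code2)

/-- as structures -/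
def W (x : RS a2) : Prop := (∀ i, i ≠ 0 → ∀ u v, ¬ rl x i u v) ∧ Prm (rl x 0) ∧ IG (rl x 0)

/-- the three relations -/
def rel (q : RS a2 × (Fin 2 → ℕ)) (i : Fin 3) : ℕ → ℕ → Prop :=
  if i = 0 then f0 (ori (rl q.1 0) q.2) else if i = 1 then f1 (ori (rl q.1 0) q.2)
    else ori (rl q.1 0) q.2

open Classical in
/-- the three relations, as Boolean functions -/
noncomputable def RR (q : RS a2 × (Fin 2 → ℕ)) : Fin 3 → ℕ → ℕ → Bool := fun i u v =>
  decide (rel q i u v)

theorem RR_iff (q : RS a2 × (Fin 2 → ℕ)) (i : Fin 3) (u v : ℕ) :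
    RR q i u v = true ↔ rel q i u v := by
  classical
  unfold RR
  rw [decide_eq_true_iff]

theorem rel_zero (q : RS a2 × (Fin 2 → ℕ)) : rel q 0 = f0 (ori (rl q.1 0) q.2) := if_pos rfl

theorem rel_one (q : RS a2 × (Fin 2 → ℕ)) : rel q 1 = f1 (ori (rl q.1 0) q.2) := rfl

theorem rel_two (q : RS a2 × (Fin 2 → ℕ)) : rel q 2 = ori (rl q.1 0) q.2 := rfl

/-- the projection to a binary relation -/
def pr (q : RS a2 × (Fin 2 → ℕ)) : (ℕ → ℕ → Bool) × (Fin 2 → ℕ) :=
  (fun u v => q.1 0 ![u, v], q.2)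

theorem pr_meas : Measurable pr := by
  have h1 : Continuous pr := by
    refine Continuous.prodMk ?_ continuous_snd
    exact continuous_pi fun u => continuous_pi fun v =>
      (continuous_apply _).comp ((continuous_apply 0).comp continuous_fst)
  exact h1.measurable

theorem RR_meas (hD : S_ID) : Measurable RR := by
  refine measurable_pi_iff.2 fun i => measurable_pi_iff.2 fun u => measurable_pi_iff.2 fun v => ?_
  have key : ∀ (Q : RS a2 × (Fin 2 → ℕ) → Prop), MeasurableSet {q | Q q} →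
      ∀ F : RS a2 × (Fin 2 → ℕ) → Bool, (∀ q, F q = true ↔ Q q) → Measurable F := by
    intro Q hQ F hF
    refine measurable_to_bool ?_
    have e : F ⁻¹' {true} = {q | Q q} := by
      ext q
      exact hF q
    rw [e]
    exact hQ
  rcases f3 i with rfl | rfl | rfl
  · exact key (fun q => f0 (ori (rl q.1 0) q.2) u v) (pr_meas (hD.1 u v)) _ fun q => by
      rw [RR_iff, rel_zero]
  · exact key (fun q => f1 (ori (rl q.1 0) q.2) u v) (pr_meas (hD.2.1 u v)) _ fun q => by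
      rw [RR_iff, rel_one]
  · exact key (fun q => ori (rl q.1 0) q.2 u v) (pr_meas (hD.2.2.1 u v)) _ fun q => by
      rw [RR_iff, rel_two]

theorem RR_act (hC : S_IC) (σ : Equiv.Perm ℕ) (x : RS a2) (p : Fin 2 → ℕ) :
    RR (aR σ x, ⇑σ ∘ p) = aF σ (RR (x, p)) := by
  obtain ⟨h1, h2, h3, -⟩ := hC (rl x 0) (rl (aR σ x) 0) σ p fun u v => rl_act σ x 0 u v
  have e1 : ∀ u, σ (σ⁻¹ u) = u := fun u => σ.apply_symm_apply u
  funext i u v
  rw [Bool.eq_iff_iff]
  show _ ↔ RR (x, p) i (σ⁻¹ u) (σ⁻¹ v) = true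
  rw [RR_iff, RR_iff]
  rcases f3 i with rfl | rfl | rfl
  · rw [rel_zero, rel_zero]
    have h4 := h1 (σ⁻¹ u) (σ⁻¹ v)
    rw [e1, e1] at h4
    exact h4
  · rw [rel_one, rel_one]
    have h4 := h2 (σ⁻¹ u) (σ⁻¹ v)
    rw [e1, e1] at h4
    exact h4
  · rw [rel_two, rel_two]
    have h4 := h3 (σ⁻¹ u) (σ⁻¹ v)
    rw [e1, e1] at h4
    exact h4

theorem rel_fun (q : RS a2 × (Fin 2 → ℕ)) (i : Fin 3) :
    (fun u v => RR q i u v = true) = rel q i := by
  funext u v
  exact propext (RR_iff q i u v)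

theorem vcu_W (hA : S_IA) (hB : S_IB) (hC : S_IC) (hD : S_ID) (hE : S_IE) : VCu W := by
  refine code2 (k := 2) vs_V3 RR (RR_meas hD) (RR_act hC)
    (fun x p => Co (rl x 0) (p 0) (p 1)) (pr_meas hD.2.2.2) ?_ ?_ ?_ ?_
  · intro x p σ h
    exact (hC (rl x 0) (rl (aR σ x) 0) σ p fun u v => rl_act σ x 0 u v).2.2.2.2 h
  · intro x hx
    exact hE.1 (rl x 0) hx.2.2 hx.2.1
  · intro x y p hx hy h1 h2 h
    obtain ⟨-, -, k1, -⟩ := hB _ p hx.2.2 hx.2.1 h1
    obtain ⟨-, -, k2, -⟩ := hB _ p hy.2.2 hy.2.1 h2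
    have e1 : ori (rl x 0) p = ori (rl y 0) p := by
      have h3 := rel_fun (x, p) 2
      have h4 := rel_fun (y, p) 2
      rw [h, h4] at h3
      exact h3.symm
    refine rl_ext fun i u v => ?_
    by_cases hi : i = 0
    · subst hi
      rw [k1 u v, k2 u v, e1]
    · exact ⟨fun h => absurd h (hx.1 i hi u v), fun h => absurd h (hy.1 i hi u v)⟩
  · intro x p hx h1
    obtain ⟨k1, k2, -, s, hs⟩ := hB _ p hx.2.2 hx.2.1 h1
    obtain ⟨l0, l1, m1, m2, n1, n2⟩ := hA _ k1 k2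
    have r0 := rel_fun (x, p) 0
    have r1 := rel_fun (x, p) 1
    refine ⟨?_, ?_, ?_, ?_, s, ?_⟩
    · rw [r0]
      exact l0
    · rw [r1]
      exact l1
    · intro a a' b h2 h3
      rw [RR_iff] at h2 h3 ⊢
      exact m1 a a' b h2 h3
    · intro a b b' h2 h3
      rw [RR_iff] at h2 h3 ⊢
      exact m2 a b b' h2 h3
    · rcases hs with hs | hs
      · right
        rintro ⟨a, ha⟩
        refine hs ⟨a, fun i j hij => ?_⟩
        obtain ⟨h2, h3⟩ := ha i j hij
        rw [RR_iff] at h2 h3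
        exact n1 _ _ h2 h3
      · left
        rintro ⟨a, ha⟩
        refine hs ⟨a, fun i j hij => ?_⟩
        obtain ⟨h2, h3⟩ := ha i j hij
        rw [RR_iff] at h2 h3
        exact n2 _ _ h2 h3

/-- graphs all of whose infinite prime induced subgraphs are interval graphs of bounded nesting -/
structure GG (A : ℕ → ℕ → Prop) : Prop where
  gr : Gr A
  prm : ∀ e : ℕ → ℕ, Function.Injective e → Prm (fun u v => A (e u) (e v)) →
    IG fun u v => A (e u) (e v)

theorem vs_GG (hA : S_IA) (hB : S_IB) (hC : S_IC) (hD : S_ID) (hE : S_IE) : VS (Bl GG) := by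
  refine vs_prime (vcu_W hA hB hC hD hE) ?_ ?_
  · rintro x h i u hu
    rcases Nat.eq_zero_or_pos i with rfl | hi
    · exact h.gr.irr u ((rs_one _ _ _).1 hu)
    · exact rs_ge x.1 hi _ _ hu
  · intro x h e he hp y hy
    have hy0 : rl y 0 = fun u v => x.1 0 (e u) (e v) = true := by
      funext u v
      exact propext ((hy 0 u v).trans (rs_one _ _ _))
    have hP : Prm (fun u v => x.1 0 (e u) (e v) = true) := by
      intro X hX
      refine hp X fun i => ?_
      rcases Nat.eq_zero_or_pos i with rfl | hi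
      · have e1 : (fun u v => rs x.1 0 (e u) (e v)) = fun u v => x.1 0 (e u) (e v) = true := by
          funext u v
          exact propext (rs_one _ _ _)
        rw [e1]
        exact hX
      · exact R617.VT.Cmp.mdl_triv (fun u v => rs_ge x.1 hi _ _) X
    refine ⟨fun i hi u v => ?_, ?_, ?_⟩
    · rw [hy]
      exact rs_ge x.1 (Nat.pos_of_ne_zero hi) _ _
    · rw [hy0]
      exact hP
    · rw [hy0]
      exact h.prm e he hP

/-- posets all of whose infinite prime suborders are interval orders of bounded nesting -/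
structure PP (r : ℕ → ℕ → Prop) : Prop where
  spo : SPO r
  prm : ∀ e : ℕ → ℕ, Function.Injective e → Prm (fun u v => r (e u) (e v)) →
    (∀ a b c d, r (e a) (e b) → r (e c) (e d) → r (e a) (e d) ∨ r (e c) (e b)) ∧
    ∃ s, NN (fun u v => r (e u) (e v)) s

theorem vs_PP (hE : S_IE) (h : VS (Bl GG)) :
    VS (m := 1) (fun r => PP fun u v => r 0 u v = true) := by
  have h1 := vs_ord h
  intro B k1 k2 k3
  refine h1 B k1 k2 fun x hx => ⟨(k3 x hx).spo, fun e he hp => ?_⟩
  have hs := (k3 x hx).spo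
  refine ⟨⟨fun u v h => ⟨h.1.symm, h.2.2, h.2.1⟩, fun u h => h.1 rfl⟩, fun e' he' hp' => ?_⟩
  have hinj : Function.Injective fun u => e (e' u) := he.comp he'
  have hP : Prm fun u v => x.1 0 (e (e' u)) (e (e' v)) = true := by
    refine hE.2 (fun u v => x.1 0 u v = true) (fun u => e (e' u)) hinj hs ?_
    have e1 : (fun u v => e (e' u) ≠ e (e' v) ∧ ¬ x.1 0 (e (e' u)) (e (e' v)) = true ∧
        ¬ x.1 0 (e (e' v)) (e (e' u)) = true) = fun u v => e' u ≠ e' v ∧
        ¬ x.1 0 (e (e' u)) (e (e' v)) = true ∧ ¬ x.1 0 (e (e' v)) (e (e' u)) = true := by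
      funext u v
      rw [he.ne_iff]
    rw [e1]
    exact hp'
  obtain ⟨h2, s, h3⟩ := (k3 x hx).prm (fun u => e (e' u)) hinj hP
  refine ⟨fun u v => x.1 0 (e (e' u)) (e (e' v)) = true, ⟨⟨fun u => hs.irr _, fun u v w =>
    hs.trans _ _ _⟩, h2⟩, fun u v => ?_, s, h3⟩
  exact ⟨fun h => ⟨he'.ne_iff.1 h.1, h.2⟩, fun h => ⟨he'.ne_iff.2 h.1, h.2⟩⟩

end Pool.Agent.K1H62.IV
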