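import Pool.Agent.W878.VC.Kel

set_option autoImplicit false

/-! Project IV (strong Vaught conjecture): interval graphs and interval orders of bounded nesting.
Definitions, statements. -/

namespace Pool.Agent.K1H62.IV

open Pool.Agent.W878.VC (Stp Fc Mdl Prm Gr SPO SLO Cmp)

/-- interval orders -/
def Ivl (P : ℕ → ℕ → Prop) : Prop := SPO P ∧ ∀ a b c d, P a b → P c d → P a d ∨ P c b

/-- everything below `u` is below `v` -/
def Ds (P : ℕ → ℕ → Prop) (u v : ℕ) : Prop := ∀ w, P w u → P w v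

/-- everything above `u` is above `v` -/
def Us (P : ℕ → ℕ → Prop) (u v : ℕ) : Prop := ∀ w, P u w → P v w

/-- `v` is nested in `u` -/
def nst (P : ℕ → ℕ → Prop) (u v : ℕ) : Prop := (Ds P u v ∧ ¬ Ds P v u) ∧ (Us P u v ∧ ¬ Us P v u)

/-- the order by left end points -/
def f0 (P : ℕ → ℕ → Prop) (u v : ℕ) : Prop :=
  (Ds P u v ∧ ¬ Ds P v u) ∨ (Ds P u v ∧ Ds P v u ∧ Us P v u ∧ ¬ Us P u v)

/-- the order by right end points -/
def f1 (P : ℕ → ℕ → Prop) (u v : ℕ) : Prop :=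
  (Us P v u ∧ ¬ Us P u v) ∨ (Us P u v ∧ Us P v u ∧ Ds P u v ∧ ¬ Ds P v u)

/-- no twins -/
def TF (P : ℕ → ℕ → Prop) : Prop :=
  ∀ u v, u ≠ v → ¬ (Ds P u v ∧ Ds P v u ∧ Us P u v ∧ Us P v u)

/-- no `s` nested points, or no `s` distinct points any two of which are not nested -/
def NN (P : ℕ → ℕ → Prop) (s : ℕ) : Prop :=
  (¬ ∃ a : Fin s → ℕ, ∀ i j, i < j → nst P (a i) (a j)) ∨
  ¬ ∃ a : Fin s → ℕ, ∀ i j, i < j → a i ≠ a j ∧ ¬ nst P (a i) (a j) ∧ ¬ nst P (a j) (a i)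

/-- the complement -/
def Co (A : ℕ → ℕ → Prop) (u v : ℕ) : Prop := u ≠ v ∧ ¬ A u v

/-- `A` is the incomparability graph of `P` -/
def Inc (A P : ℕ → ℕ → Prop) : Prop := ∀ u v, A u v ↔ u ≠ v ∧ ¬ P u v ∧ ¬ P v u

/-- interval graphs of bounded nesting (or bounded non-nesting) -/
def IG (A : ℕ → ℕ → Prop) : Prop := ∃ P, Ivl P ∧ Inc A P ∧ ∃ s, NN P s

/-- the orientation of the complement determined by the parameters -/
def ori (A : ℕ → ℕ → Prop) (p : Fin 2 → ℕ) (u v : ℕ) : Prop :=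
  Co A u v ∧ Fc (Co A) (p 0, p 1) (u, v)

/-- **(a)** The two orders of an interval order without twins. -/
def S_IA : Prop := ∀ P : ℕ → ℕ → Prop, Ivl P → TF P → SLO (f0 P) ∧ SLO (f1 P) ∧
  (∀ a a' b, f1 P a a' → P a' b → P a b) ∧ (∀ a b b', f0 P b b' → P a b → P a b') ∧
  (∀ u v, f0 P u v → f1 P v u → nst P u v) ∧
  ∀ u v, f0 P u v → f1 P u v → u ≠ v ∧ ¬ nst P u v ∧ ¬ nst P v u

/-- **(b)** The orientation of a prime interval graph. -/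
def S_IB : Prop := ∀ (A : ℕ → ℕ → Prop) (p : Fin 2 → ℕ), IG A → Prm A → Co A (p 0) (p 1) →
  Ivl (ori A p) ∧ TF (ori A p) ∧ Inc A (ori A p) ∧ ∃ s, NN (ori A p) s

/-- **(c)** Equivariance. -/
def S_IC : Prop := ∀ (A B : ℕ → ℕ → Prop) (σ : Equiv.Perm ℕ) (p : Fin 2 → ℕ),
  (∀ u v, B (σ u) (σ v) ↔ A u v) →
  (∀ u v, f0 (ori B (⇑σ ∘ p)) (σ u) (σ v) ↔ f0 (ori A p) u v) ∧
  (∀ u v, f1 (ori B (⇑σ ∘ p)) (σ u) (σ v) ↔ f1 (ori A p) u v) ∧
  (∀ u v, ori B (⇑σ ∘ p) (σ u) (σ v) ↔ ori A p u v) ∧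
  (Co B (σ (p 0)) (σ (p 1)) ↔ Co A (p 0) (p 1))

/-- **(d)** Measurability. -/
def S_ID : Prop :=
  (∀ u v, MeasurableSet {q : (ℕ → ℕ → Bool) × (Fin 2 → ℕ) |
    f0 (ori (fun u v => q.1 u v = true) q.2) u v}) ∧
  (∀ u v, MeasurableSet {q : (ℕ → ℕ → Bool) × (Fin 2 → ℕ) |
    f1 (ori (fun u v => q.1 u v = true) q.2) u v}) ∧
  (∀ u v, MeasurableSet {q : (ℕ → ℕ → Bool) × (Fin 2 → ℕ) |
    ori (fun u v => q.1 u v = true) q.2 u v}) ∧
  MeasurableSet {q : (ℕ → ℕ → Bool) × (Fin 2 → ℕ) | Co (fun u v => q.1 u v = true) (q.2 0) (q.2 1)}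

/-- **(e)** Parameters exist; the incomparability graph of a prime order restricted to a subset on
which it is prime. -/
def S_IE : Prop :=
  (∀ A : ℕ → ℕ → Prop, IG A → Prm A → ∃ p : Fin 2 → ℕ, Co A (p 0) (p 1)) ∧
  ∀ (r : ℕ → ℕ → Prop) (e : ℕ → ℕ), Function.Injective e → SPO r →
    Prm (fun u v => e u ≠ e v ∧ ¬ r (e u) (e v) ∧ ¬ r (e v) (e u)) → Prm fun u v => r (e u) (e v)

end Pool.Agent.K1H62.IV
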